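import Pool.Agent.R362.NearOrd2
import Pool.Agent.U309.ZF.Stm

/-!
# Project ZF, package DEDA: the Hadamard bound for `ζ_K` as a sum over primes and exponents
(helper750)
-/

set_option autoImplicit false

open NumberField IsDedekindDomain Complex Filter Topology
open scoped ComplexConjugate

namespace Pool.Agent.U750.ZF

open Pool.Agent.U309.ZF
open Pool.Agent.Y773 Pool.Agent.Y773.G
open Pool.Agent.R362.HL Pool.Agent.R362.Near

variable {E : Type} [Field E] [NumberField E]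

/-- the prime power `v ^ (k + 1)` -/
def pp (x : HeightOneSpectrum (𝓞 E) × ℕ) : Ideal (𝓞 E) := x.1.asIdeal ^ (x.2 + 1)

lemma two_le_norm (v : HeightOneSpectrum (𝓞 E)) : 2 ≤ Ideal.absNorm v.asIdeal := by
  have h1 : Ideal.absNorm v.asIdeal ≠ 0 := by
    rw [Ne, Ideal.absNorm_eq_zero_iff]
    exact v.ne_bot
  have h2 : Ideal.absNorm v.asIdeal ≠ 1 := by
    rw [Ne, Ideal.absNorm_eq_one_iff]
    exact v.isPrime.ne_top
  omega

lemma pp_inj : Function.Injective (pp (E := E)) := by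
  rintro ⟨v, k⟩ ⟨w, l⟩ h
  unfold pp at h
  have h1 : v.asIdeal = w.asIdeal := by
    have h2 := congrArg Ideal.radical h
    rw [Ideal.radical_pow _ (Nat.succ_ne_zero k), Ideal.radical_pow _ (Nat.succ_ne_zero l),
      v.isPrime.radical, w.isPrime.radical] at h2
    exact h2
  have h2 : v = w := HeightOneSpectrum.ext h1
  subst h2
  have h3 := congrArg Ideal.absNorm h
  rw [map_pow, map_pow] at h3
  have h4 := Nat.pow_right_injective (two_le_norm v) h3
  have h5 : k = l := by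
    have : k + 1 = l + 1 := h4
    omega
  rw [h5]

lemma mem_range_pp {𝔞 : Ideal (𝓞 E)} (h : IsPrimePow 𝔞) : 𝔞 ∈ Set.range (pp (E := E)) := by
  obtain ⟨P, k, hP, hk, rfl⟩ := h
  refine ⟨(⟨P, Ideal.isPrime_of_prime hP, hP.ne_zero⟩, k - 1), ?_⟩
  unfold pp
  show P ^ (k - 1 + 1) = P ^ k
  rw [Nat.sub_add_cancel hk]

lemma re_cpow {r a b : ℝ} (hr : 0 < r) :
    ((r : ℂ) ^ (-((a : ℂ) + b * I))).re = Real.cos (b * Real.log r) * r ^ (-a) := by
  have hr0 : (r : ℂ) ≠ 0 := by exact_mod_cast hr.ne'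
  rw [Complex.cpow_def_of_ne_zero hr0, ← Complex.ofReal_log hr.le, Real.rpow_def_of_pos hr,
    Complex.exp_re]
  have e1 : ((Real.log r : ℂ) * (-((a : ℂ) + b * I))).re = Real.log r * (-a) := by
    simp
  have e2 : ((Real.log r : ℂ) * (-((a : ℂ) + b * I))).im = -(b * Real.log r) := by
    simp
    ring
  rw [e1, e2, Real.cos_neg, mul_comm]

lemma term_eq (δ μ : ℝ) (x : HeightOneSpectrum (𝓞 E) × ℕ) :
    ((VM (pp x) : ℂ) * triv E (pp x) *
      ((Ideal.absNorm (pp x) : ℕ) : ℂ) ^ (-(((1 + δ : ℝ) : ℂ) + μ * I))).re =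
    Real.cos (μ * ((x.2 + 1) * Real.log (q x.1))) * wt δ x := by
  obtain ⟨v, k⟩ := x
  have hne : v.asIdeal ≠ ⊥ := v.ne_bot
  have hP : Prime v.asIdeal := Ideal.prime_of_isPrime hne v.isPrime
  have h1 : VM (pp (v, k)) = Real.log (Ideal.absNorm v.asIdeal) :=
    Pool.Agent.Y772.DK.VM_pow hP (Nat.succ_ne_zero k)
  have h2 : triv E (pp (v, k)) = 1 := triv_apply (pow_ne_zero _ hne)
  have h3 : ((Ideal.absNorm (pp (v, k)) : ℕ) : ℂ) = (((q v) ^ (k + 1) : ℝ) : ℂ) := by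
    unfold pp q
    rw [map_pow]
    push_cast
    rfl
  have hq : 0 < q v := by
    unfold q
    have := two_le_norm v
    positivity
  rw [h1, h2, mul_one, h3, Complex.re_ofReal_mul, re_cpow (pow_pos hq _)]
  have h4 : Real.log (q v ^ (k + 1)) = (k + 1) * Real.log (q v) := by
    rw [Real.log_pow]
    push_cast
    rfl
  have h5 : (q v ^ (k + 1)) ^ (-(1 + δ)) = q v ^ (-((k + 1) * (1 + δ))) := by
    rw [← Real.rpow_natCast, ← Real.rpow_mul hq.le]
    congr 1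
    push_cast
    ring
  rw [h4, h5]
  unfold wt
  simp only
  unfold q
  ring

lemma key_sum {δ : ℝ} (μ : ℝ) (hδ : 0 < δ) :
    HasSum (fun x : HeightOneSpectrum (𝓞 E) × ℕ =>
      Real.cos (μ * ((x.2 + 1) * Real.log (q x.1))) * wt δ x)
      (-(logDeriv (LI (triv E)) (((1 + δ : ℝ) : ℂ) + μ * I)).re) := by
  obtain ⟨s, hs⟩ : ∃ s : ℂ, s = ((1 + δ : ℝ) : ℂ) + μ * I := ⟨_, rfl⟩
  have hre : s.re = 1 + δ := by rw [hs]; simp
  have h1 : 1 < s.re := by rw [hre]; linarith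
  obtain ⟨A', hA', hd⟩ := Pool.Agent.Y772.DK.t_dirK E
  obtain ⟨-, -, hne, -⟩ := hd (triv E) triv_norm
  have key : logDeriv (LI (triv E)) s =
      -(-(deriv (Pool.Agent.Y772.DK.LA (Pool.Agent.Y772.DK.ee (triv E))) s)) := by
    rw [neg_neg, logDeriv_apply, Pool.Agent.Y772.DK.deriv_LI (triv E) triv_norm h1, mul_div_assoc,
      div_self (hne s h1), mul_one]
  have e2 := Complex.hasSum_re (Pool.Agent.Y772.DK.D_hasSum (triv E) triv_norm h1)
  rw [← hs, key, Complex.neg_re, neg_neg]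
  have e3 := (pp_inj (E := E)).hasSum_iff (f := fun 𝔞 : Ideal (𝓞 E) =>
    ((VM 𝔞 : ℂ) * triv E 𝔞 * ((Ideal.absNorm 𝔞 : ℕ) : ℂ) ^ (-s)).re)
    (a := (-(deriv (Pool.Agent.Y772.DK.LA (Pool.Agent.Y772.DK.ee (triv E))) s)).re) (by
      intro 𝔞 h𝔞
      have h2 : ¬ IsPrimePow 𝔞 := fun h => h𝔞 (mem_range_pp h)
      rw [Pool.Agent.Y772.DK.VM_of_not h2]
      simp)
  have e5 : (fun x : HeightOneSpectrum (𝓞 E) × ℕ =>
      Real.cos (μ * ((x.2 + 1) * Real.log (q x.1))) * wt δ x) = (fun 𝔞 : Ideal (𝓞 E) =>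
      ((VM 𝔞 : ℂ) * triv E 𝔞 * ((Ideal.absNorm 𝔞 : ℕ) : ℂ) ^ (-s)).re) ∘ pp := by
    funext x
    rw [hs]
    exact (term_eq δ μ x).symm
  rw [e5]
  exact e3.2 e2

theorem t_DEDA : S_DEDA := by
  intro n
  refine ⟨n + 1, by positivity, ?_⟩
  intro K _ _ hn δ μ hδ hδ1
  rw [(key_sum (E := K) μ hδ).tsum_eq]
  obtain ⟨X, hX⟩ := exists_xi K
  obtain ⟨s, hs⟩ : ∃ s : ℂ, s = ((1 + δ : ℝ) : ℂ) + μ * I := ⟨_, rfl⟩
  have hre : s.re = 1 + δ := by rw [hs]; simp
  have him : s.im = μ := by rw [hs]; simp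
  have h0 : 1 < s.re := by rw [hre]; linarith
  have h1 := IsXi.logDeriv_eq (E := K) (X := X) hX h0
  have h2 := IsXi.sum_le (E := K) (X := X) hX ∅ (by simp) h0
  rw [Finset.sum_empty] at h2
  -- the Gamma factors
  have h4 : ∀ φ : K →+* ℂ, (logDeriv Gammaℝ (s + (ex (fun _ : InfinitePlace K => 0) φ : ℕ))).re ≤
      Real.log ((|μ| + 3) / 2) / 2 := by
    intro φ
    obtain ⟨k, hk⟩ : ∃ k : ℕ, k = ex (fun _ : InfinitePlace K => 0) φ := ⟨_, rfl⟩
    have hk1 : k ≤ 1 := by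
      rw [hk]
      unfold ex
      split_ifs <;> norm_num
    have hk1' : (k : ℝ) ≤ 1 := by exact_mod_cast hk1
    have hk0 : (0 : ℝ) ≤ k := Nat.cast_nonneg k
    rw [← hk, hs]
    have h5 : ((1 + δ : ℝ) : ℂ) + μ * I + (k : ℂ) = ((1 + δ + k : ℝ) : ℂ) + μ * I := by
      push_cast; ring
    rw [h5]
    refine (re_GR (by linarith)).trans ?_
    have : Real.log ((1 + δ + k + |μ|) / 2) ≤ Real.log ((|μ| + 3) / 2) :=
      Real.log_le_log (by positivity) (by linarith)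
    linarith
  have h5 : ∑ φ : K →+* ℂ, (logDeriv Gammaℝ (s + (ex (fun _ : InfinitePlace K => 0) φ : ℕ))).re ≤
      n / 2 * Real.log ((|μ| + 3) / 2) := by
    refine (Finset.sum_le_card_nsmul _ _ _ fun φ _ => h4 φ).trans (le_of_eq ?_)
    rw [Finset.card_univ, card_emb, nsmul_eq_mul, hn]
    ring
  have h6 : (1 / (s - 1)).re = δ / (δ ^ 2 + μ ^ 2) := by
    have e : s - 1 = (δ : ℂ) + μ * I := by rw [hs]; push_cast; ring
    have e1 : ((δ : ℂ) + μ * I).re = δ := by simp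
    have e2 : ((δ : ℂ) + μ * I).im = μ := by simp
    rw [e, one_div, Complex.inv_re, Complex.normSq_apply, e1, e2]
    congr 1
    ring
  have h7 : (1 / s).re ≤ 1 := by
    rw [one_div, Complex.inv_re, Complex.normSq_apply, hre, him, div_le_one (by nlinarith)]
    nlinarith [mul_self_nonneg μ]
  have hlog3 : 1 ≤ Real.log (|μ| + 3) := by
    rw [Real.le_log_iff_exp_le (by positivity)]
    have := Real.exp_one_lt_d9
    have := abs_nonneg μ
    linarith
  have h8 : Real.log ((|μ| + 3) / 2) ≤ Real.log (|μ| + 3) :=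
    Real.log_le_log (by positivity) (by have := abs_nonneg μ; linarith)
  have h9 : lgd K = ld K := by
    unfold lgd ld
    rw [Nat.cast_natAbs, Int.cast_abs]
  have h10 : 0 ≤ ld K := by
    rw [← h9]
    unfold lgd
    exact Real.log_natCast_nonneg _
  have hn0 : (0 : ℝ) ≤ n := Nat.cast_nonneg n
  have h11 : (n : ℝ) / 2 * Real.log ((|μ| + 3) / 2) ≤ n * Real.log (|μ| + 3) := by
    have h12 : (n : ℝ) / 2 * Real.log ((|μ| + 3) / 2) ≤ n / 2 * Real.log (|μ| + 3) :=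
      mul_le_mul_of_nonneg_left h8 (by positivity)
    have h13 : 0 ≤ (n : ℝ) * Real.log (|μ| + 3) := by positivity
    linarith
  rw [h1, Complex.add_re, Complex.add_re, Complex.add_re, Complex.add_re, Complex.re_sum,
    Complex.ofReal_re, h6, h9] at h2
  rw [← hs]
  have h14 : 0 ≤ (n : ℝ) * ld K := by positivity
  nlinarith

end Pool.Agent.U750.ZF
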